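import Pool.Agent.W581.HQ.Stm

/-! Project HQ: the profile of a rank-one convex function is convex. -/

set_option autoImplicit false

namespace Pool.Agent.W999.HQCV

open Set
open Pool.Agent.W360.MQ (RankOneConvex)
open Pool.Agent.W581.HQ

theorem rank_dg (d : ℝ) (hd : d ≠ 0) : (dg 0 d).rank = 1 := by
  classical
  have h1 : dg 0 d = Matrix.diagonal ![0, d] := by
    ext i j
    fin_cases i <;> fin_cases j <;> simp [dg]
  rw [h1, Matrix.rank_diagonal, Fintype.card_eq_one_iff]
  refine ⟨⟨1, by simpa using hd⟩, ?_⟩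
  rintro ⟨i, hi⟩
  fin_cases i
  · simp at hi
  · rfl

theorem main : S_CV := by
  intro p W hW
  refine ⟨convex_univ, ?_⟩
  intro x _ y _ a b ha hb hab
  simp only [smul_eq_mul]
  by_cases hxy : x = y
  · subst hxy
    have h1 : a * x + b * x = x := by rw [← add_mul, hab, one_mul]
    rw [h1, ← add_mul, hab, one_mul]
  · have hr := hW.roc (dg 1 x) (dg 0 (y - x)) (rank_dg (y - x) (sub_ne_zero.2 (Ne.symm hxy))) b hb
      (by linarith)
    have ha' : a = 1 - b := by linarith
    have e1 : dg 1 x + dg 0 (y - x) = dg 1 y := by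
      ext i j
      fin_cases i <;> fin_cases j <;> simp [dg]
    have e2 : (1 - b) • dg 1 x + b • dg 1 y = dg 1 (a * x + b * y) := by
      rw [ha']
      ext i j
      fin_cases i <;> fin_cases j <;> simp [dg]
    rw [e1, e2] at hr
    unfold phi
    rw [ha'] at hr ⊢
    exact hr

end Pool.Agent.W999.HQCV
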